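import Mathlib
import Pool.Agent.N991.JF.Stm

/-!
# Project JF, leaf ANDR (helper987): the Andreadakis filtration is central.
-/

set_option autoImplicit false

namespace Pool.Agent.N987.JF

open Pool.Agent.N991.JF
open scoped commutatorElement

section

variable {G : Type} [Group G]

/-- The three subgroups lemma modulo a normal subgroup. -/
lemma three (N : Subgroup G) [N.Normal] (H₁ H₂ H₃ : Subgroup G)
    (h1 : ⁅⁅H₂, H₃⁆, H₁⁆ ≤ N) (h2 : ⁅⁅H₃, H₁⁆, H₂⁆ ≤ N) : ⁅⁅H₁, H₂⁆, H₃⁆ ≤ N := by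
  have e : ∀ K : Subgroup G, K ≤ N ↔ K.map (QuotientGroup.mk' N) = ⊥ := by
    intro K
    rw [Subgroup.map_eq_bot_iff, QuotientGroup.ker_mk']
  rw [e] at h1 h2 ⊢
  rw [Subgroup.map_commutator, Subgroup.map_commutator] at h1 h2 ⊢
  exact Subgroup.commutator_commutator_eq_bot_of_rotate h1 h2

instance gam_normal (k : ℕ) : (gam G k).Normal := inferInstance

lemma gam_succ (k : ℕ) : gam G (k + 1) = ⁅gam G k, ⊤⁆ := rfl

lemma gam_anti {a b : ℕ} (h : a ≤ b) : gam G b ≤ gam G a :=
  Subgroup.lowerCentralSeries_antitone _ h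

lemma comm_le (j : ℕ) : ∀ i : ℕ, ⁅gam G i, gam G j⁆ ≤ gam G (i + j + 1) := by
  induction j with
  | zero => intro i; exact le_of_eq rfl
  | succ j ih =>
    intro i
    rw [Subgroup.commutator_comm, gam_succ j]
    apply three
    · have h1 : ⁅(⊤ : Subgroup G), gam G i⁆ = gam G (i + 1) := by
        rw [Subgroup.commutator_comm]; rfl
      rw [h1]
      have := ih (i + 1)
      have e : i + 1 + j + 1 = i + (j + 1) + 1 := by omega
      rw [e] at this
      exact this
    · have h2 : ⁅⁅gam G i, gam G j⁆, (⊤ : Subgroup G)⁆ ≤ ⁅gam G (i + j + 1), (⊤ : Subgroup G)⁆ :=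
        Subgroup.commutator_mono (ih i) le_rfl
      exact h2

/-- Commuting modulo a term. -/
lemma comm_mk {i j n : ℕ} (hn : n ≤ i + j + 1) {a b : G} (ha : a ∈ gam G i) (hb : b ∈ gam G j) :
    (QuotientGroup.mk' (gam G n) a) * (QuotientGroup.mk' (gam G n) b) =
      (QuotientGroup.mk' (gam G n) b) * (QuotientGroup.mk' (gam G n) a) := by
  have h : ⁅a, b⁆ ∈ gam G n :=
    gam_anti hn (comm_le j i (Subgroup.commutator_mem_commutator ha hb))
  have h1 : QuotientGroup.mk' (gam G n) ⁅a, b⁆ = 1 := by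
    rw [← MonoidHom.mem_ker, QuotientGroup.ker_mk']; exact h
  rw [map_commutatorElement] at h1
  exact commutatorElement_eq_one_iff_mul_comm.mp h1

lemma eq_mk_iff {n : ℕ} {a b : G} :
    a * b⁻¹ ∈ gam G n ↔ QuotientGroup.mk' (gam G n) a = QuotientGroup.mk' (gam G n) b := by
  have h : a * b⁻¹ ∈ gam G n ↔ a * b⁻¹ ∈ (QuotientGroup.mk' (gam G n)).ker := by
    rw [QuotientGroup.ker_mk']
  rw [h, MonoidHom.mem_ker, map_mul, map_inv, mul_inv_eq_one]

/-- An automorphism in `autJ i` moves the elements of `gam j` by elements of `gam (i + j)`. -/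
lemma shift (i j : ℕ) (α : MulAut G) (hα : α ∈ autJ G i) :
    ∀ x ∈ gam G j, α x * x⁻¹ ∈ gam G (i + j) := by
  induction j with
  | zero => intro x _; exact hα x
  | succ j ih =>
    intro x hx
    set N := gam G (i + (j + 1)) with hN
    set q := QuotientGroup.mk' N with hq
    have hle : gam G (j + 1) ≤ MonoidHom.eqLocus (q.comp (α : G ≃* G).toMonoidHom) q := by
      rw [gam_succ, Subgroup.commutator_le]
      intro y hy z _
      change q (α ⁅y, z⁆) = q ⁅y, z⁆
      obtain ⟨a, ha, hay⟩ : ∃ a ∈ gam G (i + j), α y = a * y :=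
        ⟨α y * y⁻¹, ih y hy, by group⟩
      obtain ⟨b, hb, hbz⟩ : ∃ b ∈ gam G i, α z = b * z := ⟨α z * z⁻¹, hα z, by group⟩
      have hcen : ∀ g : G, q a * q g = q g * q a := fun g =>
        comm_mk (i := i + j) (j := 0) (by omega) ha (Subgroup.mem_top g)
      have hby : q b * q y = q y * q b := comm_mk (i := i) (j := j) (by omega) hb hy
      have hyz : ⁅y, z⁆ ∈ gam G (j + 1) := by
        rw [gam_succ]; exact Subgroup.commutator_mem_commutator hy (Subgroup.mem_top z)
      have hbc : q b * q ⁅y, z⁆ = q ⁅y, z⁆ * q b :=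
        comm_mk (i := i) (j := j + 1) (by omega) hb hyz
      have e1 : α ⁅y, z⁆ = ⁅a * y, b * z⁆ := by rw [map_commutatorElement, hay, hbz]
      have e2 : ⁅a * y, b * z⁆ = a * (y * b) * (z * y⁻¹ * (a⁻¹ * z⁻¹)) * b⁻¹ := by
        rw [commutatorElement_def]; group
      have e3 : q (a * (y * b) * (z * y⁻¹ * (a⁻¹ * z⁻¹)) * b⁻¹) = q b * q ⁅y, z⁆ * (q b)⁻¹ := by
        have ha' : q (a⁻¹ * z⁻¹) = q (z⁻¹ * a⁻¹) := by
          have := hcen z
          simp only [map_mul, map_inv]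
          rw [← mul_inv_rev, ← mul_inv_rev, this]
        have hyb : q (y * b) = q (b * y) := by simp only [map_mul]; exact hby.symm
        have h5 : q (a * (y * b) * (z * y⁻¹ * (a⁻¹ * z⁻¹)) * b⁻¹) =
            q a * q (b * y * z * y⁻¹ * z⁻¹) * (q a)⁻¹ * (q b)⁻¹ := by
          rw [map_mul, map_mul, map_mul, hyb, map_mul q (z * y⁻¹), ha']
          simp only [map_mul, map_inv]
          group
        rw [h5, hcen]
        have h6 : b * y * z * y⁻¹ * z⁻¹ = b * ⁅y, z⁆ := by rw [commutatorElement_def]; group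
        rw [h6, map_mul]
        group
      rw [e1, e2, e3, hbc]
      group
    have h := hle hx
    rw [eq_mk_iff]
    exact h

end

theorem t_ANDR : S_ANDR := by
  intro π _ j
  rw [Subgroup.commutator_le]
  intro α hα β hβ
  intro x
  obtain ⟨y, rfl⟩ : ∃ y, x = β (α y) := ⟨α⁻¹ (β⁻¹ x), by
    rw [MulAut.apply_inv_self, MulAut.apply_inv_self]⟩
  have e0 : ⁅α, β⁆ (β (α y)) = α (β y) := by
    rw [commutatorElement_def]
    simp only [MulAut.mul_apply, MulAut.inv_apply_self]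
  rw [e0, eq_mk_iff]
  set q := QuotientGroup.mk' (gam π (j + 1)) with hq
  obtain ⟨b, hb, hby⟩ : ∃ b ∈ gam π j, β y = b * y := ⟨β y * y⁻¹, hβ y, by group⟩
  obtain ⟨a, ha, hay⟩ : ∃ a ∈ gam π 1, α y = a * y := ⟨α y * y⁻¹, hα y, by group⟩
  have h1 : q (α b) = q b := by
    have := shift 1 j α hα b hb
    rw [add_comm 1 j] at this
    exact eq_mk_iff.mp this
  have h2 : q (β a) = q a := eq_mk_iff.mp (shift j 1 β hβ a ha)
  have h3 : q a * q b = q b * q a := comm_mk (i := 1) (j := j) (by omega) ha hb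
  rw [hby, hay, map_mul, map_mul q, hay, map_mul β, map_mul q, hby, map_mul q, map_mul q,
    h1, h2, ← mul_assoc, ← mul_assoc, h3]

end Pool.Agent.N987.JF
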